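import Pool.Agent.U722.FF.Stm

/-!
# Project FX, package FA: groups over subgroups of the group of integral two by two matrices

The subdivision of a tree, and the groups that act on it.
-/

set_option autoImplicit false

namespace Pool.Agent.U333.FX

open U722.FF Matrix MulAction

/-! ### The subdivision of a tree -/

section Sub

variable {V : Type} (T : SimpleGraph V)

/-- the subdivision -/
def sb : SimpleGraph (V ⊕ T.edgeSet) where
  Adj x y := match x, y with
    | .inl v, .inr e => v ∈ e.1
    | .inr e, .inl v => v ∈ e.1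
    | _, _ => False
  symm := ⟨fun x y h => by
    rcases x with v | e <;> rcases y with w | f
    · exact h
    · exact h
    · exact h
    · exact h⟩
  loopless := ⟨fun x h => by
    rcases x with v | e <;> exact h⟩

theorem sb_lr {v : V} {e : T.edgeSet} : (sb T).Adj (.inl v) (.inr e) ↔ v ∈ e.1 := Iff.rfl
theorem sb_rl {v : V} {e : T.edgeSet} : (sb T).Adj (.inr e) (.inl v) ↔ v ∈ e.1 := Iff.rfl

/-- the level of a pair -/
def le2 (d : V → ℕ) (e : Sym2 V) : ℕ := Sym2.lift ⟨fun a b => d a + d b, fun _ _ => add_comm _ _⟩ e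

theorem le2_mk (d : V → ℕ) (a b : V) : le2 d s(a, b) = d a + d b := rfl

/-- the level -/
def lw (d : V → ℕ) : V ⊕ T.edgeSet → ℕ
  | .inl v => 2 * d v
  | .inr e => le2 d e.1

theorem mem_cases {e : T.edgeSet} {v : V} (h : v ∈ e.1) : ∃ w, e.1 = s(v, w) ∧ T.Adj v w := by
  obtain ⟨w, hw⟩ := h
  refine ⟨w, hw, ?_⟩
  have := e.2
  rw [hw] at this
  exact this

theorem sb_tree_of (d : V → ℕ) (r : V) (h1 : ∀ u v, T.Adj u v → d u ≠ d v)
    (h2 : ∀ v, v ≠ r → ∃ u, T.Adj v u ∧ d u < d v)
    (h3 : ∀ v u u', T.Adj v u → T.Adj v u' → d u < d v → d u' < d v → u = u') :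
    (sb T).IsTree := by
  refine Pool.Agent.U709.BT.isTree_of_level (sb T) (lw T d) (.inl r) ?_ ?_ ?_
  · intro x y h
    rcases x with v | e <;> rcases y with w | f
    · exact h.elim
    · obtain ⟨w, hw, ha⟩ := mem_cases T h
      have := h1 _ _ ha
      simp only [lw, hw, le2_mk]
      omega
    · obtain ⟨w, hw, ha⟩ := mem_cases T h
      have := h1 _ _ ha
      simp only [lw, hw, le2_mk]
      omega
    · exact h.elim
  · intro x hx
    rcases x with v | e
    · have hv : v ≠ r := fun h => hx (by rw [h])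
      obtain ⟨u, hu, hd⟩ := h2 v hv
      refine ⟨.inr ⟨s(v, u), hu⟩, ?_, ?_⟩
      · rw [sb_lr]
        exact Sym2.mem_mk_left v u
      · simp only [lw, le2_mk]
        omega
    · obtain ⟨e, he⟩ := e
      induction e using Sym2.ind with
      | _ a b =>
        have hab : T.Adj a b := he
        rcases lt_or_gt_of_ne (h1 a b hab) with h | h
        · refine ⟨.inl a, ?_, ?_⟩
          · rw [sb_rl]; exact Sym2.mem_mk_left a b
          · simp only [lw, le2_mk]; omega
        · refine ⟨.inl b, ?_, ?_⟩
          · rw [sb_rl]; exact Sym2.mem_mk_right a b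
          · simp only [lw, le2_mk]; omega
  · intro x y y' h h' hl hl'
    rcases x with v | e
    · rcases y with w | f
      · exact h.elim
      rcases y' with w' | f'
      · exact h'.elim
      obtain ⟨w, hw, ha⟩ := mem_cases T h
      obtain ⟨w', hw', ha'⟩ := mem_cases T h'
      simp only [lw, hw, le2_mk] at hl
      simp only [lw, hw', le2_mk] at hl'
      have := h3 v w w' ha ha' (by omega) (by omega)
      congr 1
      apply Subtype.ext
      rw [hw, hw', this]
    · rcases y with w | f
      swap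
      · exact h.elim
      rcases y' with w' | f'
      swap
      · exact h'.elim
      congr 1
      obtain ⟨u, hu, ha⟩ := mem_cases T (v := w) h
      have h4 : w' ∈ e.1 := h'
      rw [hu, Sym2.mem_iff] at h4
      rcases h4 with h4 | h4
      · exact h4.symm
      · exfalso
        subst h4
        simp only [lw, hu, le2_mk] at hl hl'
        omega

theorem closer_unique (hT : T.IsTree) (r v u u' : V) (h : T.Adj v u) (h' : T.Adj v u')
    (hd : T.dist r u < T.dist r v) (hd' : T.dist r u' < T.dist r v) : u = u' := by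
  classical
  obtain ⟨P, hP, hPl⟩ := (hT.connected r v).exists_path_of_dist
  have key : ∀ w, T.Adj v w → T.dist r w < T.dist r v → P.penultimate = w := by
    intro w hw hlt
    obtain ⟨p, hp, hpl⟩ := (hT.connected r w).exists_path_of_dist
    have h1 : v ∉ p.support := by
      intro hv
      have h2 : T.dist r v ≤ (p.takeUntil v hv).length := SimpleGraph.dist_le _
      have h3 := p.length_takeUntil_le_length hv
      omega
    have h2 : w ∈ P.support :=
      hT.isAcyclic.mem_support_of_ne_mem_support_of_adj_of_isPath hP hp hw h1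
    have h3 := hT.isAcyclic.path_concat hp hP hw.symm h2
    rw [h3]
    simp
  rw [← key u h hd, ← key u' h' hd']

theorem sb_tree (hT : T.IsTree) : (sb T).IsTree := by
  obtain ⟨r⟩ := hT.connected.nonempty
  refine sb_tree_of T (fun v => T.dist r v) r (fun u v h => hT.dist_ne_of_adj r h) ?_
    (fun v u u' h h' hd hd' => closer_unique T hT r v u u' h h' hd hd')
  intro v hv
  obtain ⟨p, hp⟩ := (hT.connected v r).exists_walk_length_eq_dist
  cases p with
  | nil => exact absurd rfl hv
  | cons h q =>
    rename_i u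
    refine ⟨u, h, ?_⟩
    have h1 : T.dist u r ≤ q.length := SimpleGraph.dist_le _
    rw [SimpleGraph.Walk.length_cons] at hp
    show T.dist r u < T.dist r v
    rw [T.dist_comm (u := r) (v := u), T.dist_comm (u := r) (v := v)]
    omega

/-! ### The action -/

variable {H : Type} [Group H] [MulAction H V]

/-- the action on the subdivision -/
@[instance_reducible] def sbAct (hA : ∀ (g : H) (u v : V), T.Adj u v → T.Adj (g • u) (g • v)) :
    MulAction H (V ⊕ T.edgeSet) where
  smul g x := match x with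
    | .inl v => .inl (g • v)
    | .inr e => .inr ⟨e.1.map (fun v => g • v), by
        obtain ⟨e, he⟩ := e
        induction e using Sym2.ind with
        | _ a b => exact hA g a b he⟩
  one_smul x := by
    rcases x with v | e
    · exact congrArg Sum.inl (one_smul H v)
    · refine congrArg Sum.inr (Subtype.ext ?_)
      show e.1.map (fun v => (1 : H) • v) = e.1
      simp
  mul_smul g h x := by
    rcases x with v | e
    · exact congrArg Sum.inl (mul_smul g h v)
    · refine congrArg Sum.inr (Subtype.ext ?_)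
      show e.1.map (fun v => (g * h) • v) = (e.1.map (fun v => h • v)).map (fun v => g • v)
      rw [Sym2.map_map]
      simp [mul_smul]

end Sub

/-! ### Finitely generated abelian groups -/

theorem fg_of_inj {A : Type} [Group A] {n : ℕ} (v : A →* Multiplicative (Fin n → ℤ))
    (hv : Function.Injective v) : Group.FG A := by
  have h1 : (Subgroup.toAddSubgroup' v.range : AddSubgroup (Fin n → ℤ)).FG := by
    rw [← AddSubgroup.toIntSubmodule_toAddSubgroup (Subgroup.toAddSubgroup' v.range),
      ← Submodule.fg_iff_addSubgroup_fg]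
    exact IsNoetherian.noetherian _
  have h2 : v.range.FG := by
    rw [Subgroup.fg_iff_add_fg]
    exact h1
  have h3 : Group.FG v.range := (Group.fg_iff_subgroup_fg _).mpr h2
  exact Group.fg_of_surjective (f := (MonoidHom.ofInjective hv).symm.toMonoidHom)
    (MonoidHom.ofInjective hv).symm.surjective

/-! ### Groups which are almost in the kernel -/

section Grp

variable {G : Type} [Group G] (φ : G →* GL (Fin 2) ℤ)

theorem sub_good
    (hVA : ∀ (G : Type) [Group G] (ε : G →* ℤˣ), NoTor G →
      (∀ a b : G, ε a = 1 → ε b = 1 → a * b = b * a) → Group.FG ↥ε.ker → TF G ∧ Group.FG G)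
    (hN : NoTor G)
    (hv : ∃ (n : ℕ) (v : ↥φ.ker →* Multiplicative (Fin n → ℤ)), Function.Injective v)
    (hu : ∀ (g : G) (n : ℕ), 0 < n → φ g ^ n = 1 → (φ g).1.det = 1 → φ g = 1)
    (S : Subgroup G) (hS : ∀ s ∈ S, ∃ n : ℕ, 0 < n ∧ φ s ^ n = 1) : TF ↥S ∧ Group.FG ↥S := by
  obtain ⟨n, v, hv⟩ := hv
  set ε : ↥S →* ℤˣ := (GeneralLinearGroup.det.comp φ).comp S.subtype with hε
  have hker : ∀ s : ↥S, ε s = 1 → φ s.1 = 1 := by
    intro s hs
    obtain ⟨m, hm, h1⟩ := hS s.1 s.2
    refine hu s.1 m hm h1 ?_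
    have h2 : GeneralLinearGroup.det (φ s.1) = 1 := hs
    have h3 := congrArg Units.val h2
    simpa using h3
  refine hVA ↥S ε ?_ ?_ ?_
  · intro g k hk h
    apply Subtype.ext
    exact hN g.1 k hk (by
      have := congrArg Subtype.val h
      simpa using this)
  · intro a b ha hb
    have ka : a.1 ∈ φ.ker := hker a ha
    have kb : b.1 ∈ φ.ker := hker b hb
    have h1 : (⟨a.1, ka⟩ * ⟨b.1, kb⟩ : ↥φ.ker) = ⟨b.1, kb⟩ * ⟨a.1, ka⟩ := by
      apply hv
      rw [map_mul, map_mul, mul_comm]
    apply Subtype.ext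
    exact congrArg (fun z : ↥φ.ker => z.1) h1
  · let ι : ↥ε.ker →* ↥φ.ker :=
      { toFun := fun s => ⟨s.1.1, hker s.1 s.2⟩
        map_one' := rfl
        map_mul' := fun a b => rfl }
    refine fg_of_inj (v.comp ι) (hv.comp ?_)
    intro a b hab
    apply Subtype.ext
    apply Subtype.ext
    exact congrArg (fun z : ↥φ.ker => z.1) hab

end Grp

theorem fin_ord {H V : Type} [Group H] [MulAction H V] {v : V} [Finite ↥(stabilizer H v)] {h : H}
    (hh : h • v = v) : ∃ n : ℕ, 0 < n ∧ h ^ n = 1 := by
  have h1 : IsOfFinOrder (⟨h, hh⟩ : ↥(stabilizer H v)) := isOfFinOrder_of_finite _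
  obtain ⟨n, hn, h2⟩ := isOfFinOrder_iff_pow_eq_one.1 h1
  exact ⟨n, hn, by
    have := congrArg Subtype.val h2
    simpa using this⟩

theorem core (hTT : S_TT) (hFAR : S_FAR)
    (hVA : ∀ (G : Type) [Group G] (ε : G →* ℤˣ), NoTor G →
      (∀ a b : G, ε a = 1 → ε b = 1 → a * b = b * a) → Group.FG ↥ε.ker → TF G ∧ Group.FG G)
    (G : Type) [Group G] (φ : G →* GL (Fin 2) ℤ) (hN : NoTor G) (hFG : Group.FG G)
    (hv : ∃ (n : ℕ) (v : ↥φ.ker →* Multiplicative (Fin n → ℤ)), Function.Injective v)
    (hu : ∀ (g : G) (n : ℕ), 0 < n → φ g ^ n = 1 → (φ g).1.det = 1 → φ g = 1) : TF G := by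
  obtain ⟨V, iV, T, hT, hA, hfin⟩ := hFAR
  let act : MulAction (GL (Fin 2) ℤ) (V ⊕ T.edgeSet) := sbAct T hA
  let actG : MulAction G (V ⊕ T.edgeSet) := MulAction.compHom _ φ
  have sl : ∀ (g : G) (v : V), g • (Sum.inl v : V ⊕ T.edgeSet) = Sum.inl (φ g • v) :=
    fun _ _ => rfl
  have sr : ∀ (g : G) (e : T.edgeSet), ∃ h, g • (Sum.inr e : V ⊕ T.edgeSet) =
      Sum.inr ⟨e.1.map (fun v => φ g • v), h⟩ := fun g e => ⟨_, rfl⟩
  have hstab : ∀ (w : V ⊕ T.edgeSet) (s : G), s • w = w → ∃ n : ℕ, 0 < n ∧ φ s ^ n = 1 := by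
    intro w s hs
    rcases w with v | e
    · rw [sl] at hs
      have := hfin v
      exact fin_ord (v := v) (Sum.inl_injective hs)
    · obtain ⟨h, hr⟩ := sr s e
      rw [hr] at hs
      have h1 := congrArg Subtype.val (Sum.inr_injective hs)
      obtain ⟨e, he⟩ := e
      induction e using Sym2.ind with
      | _ a b =>
        have h2 : s(φ s • a, φ s • b) = s(a, b) := h1
        rw [Sym2.eq_iff] at h2
        have := hfin a
        have h3 : (φ s) ^ 2 • a = a := by
          rw [pow_two, mul_smul]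
          rcases h2 with ⟨h4, h5⟩ | ⟨h4, h5⟩
          · rw [h4, h4]
          · rw [h4, h5]
        obtain ⟨n, hn, h4⟩ := fin_ord (v := a) h3
        exact ⟨2 * n, by omega, by rw [pow_mul]; exact h4⟩
  have good := sub_good φ hVA hN hv hu
  refine hTT G (V ⊕ T.edgeSet) (sb T) hFG (sb_tree T hT) ?_ ?_ ?_ ?_
  · intro g x y h
    rcases x with v | e <;> rcases y with w | f
    · exact h.elim
    · obtain ⟨h', hr⟩ := sr g f
      rw [sl, hr, sb_lr]
      exact Sym2.mem_map.2 ⟨v, h, rfl⟩
    · obtain ⟨h', hr⟩ := sr g e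
      rw [sl, hr, sb_rl]
      exact Sym2.mem_map.2 ⟨w, h, rfl⟩
    · exact h.elim
  · intro g x y h h1 h2
    rcases x with v | e <;> rcases y with w | f
    · exact h.elim
    · rw [sl] at h1
      exact Sum.inl_ne_inr h1
    · rw [sl] at h2
      exact Sum.inl_ne_inr h2
    · exact h.elim
  · intro u v _
    exact good _ (fun s hs => hstab u s hs.1)
  · intro v _
    exact (good _ (fun s hs => hstab v s hs)).1

end Pool.Agent.U333.FX
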