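import Pool.Agent.U293.FX.Stm
import Pool.Agent.U333.FX.FA0

/-!
# Project FX, package FA
-/

set_option autoImplicit false

namespace Pool.Agent.U333.FX

theorem t_FA (h : Pool.Agent.U293.FX.S_VA) : Pool.Agent.U293.FX.S_FA :=
  fun G _ φ hN hFG hv hu => core U722.FF.TT U722.FF.FAR h G φ hN hFG hv hu

end Pool.Agent.U333.FX
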